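import Pool.Agent.T6.H90.ST.Defs

set_option autoImplicit false

/-!
# Module CV: domination by a small family
-/

namespace Pool.Agent.T6.H90.ST

open Finset

namespace ModCV

section

variable {V : Type} [Fintype V] [DecidableEq V] (N : V → Finset V) (d : ℕ)

/-- the number of neighbours in `R` -/
def c (R : Finset V) (x : V) : ℝ := ((N x ∩ R).card : ℝ)

theorem c_insert {A : Finset V} {y : V} (hy : y ∉ A) (x : V) :
    c N (insert y A) x = c N A x + if y ∈ N x then 1 else 0 := by
  unfold c
  split_ifs with h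
  · rw [inter_insert_of_mem h, card_insert_of_notMem]
    · push_cast
      rfl
    · exact fun h' => hy (mem_inter.mp h').2
  · rw [inter_insert_of_notMem h, add_zero]

theorem c_sum (hcard : ∀ x, (N x).card = d) (hsym : ∀ x y, y ∈ N x ↔ x ∈ N y) (R : Finset V) :
    ∑ x, c N R x = d * R.card := by
  have h1 : ∀ x, c N R x = ∑ y ∈ R, if y ∈ N x then (1 : ℝ) else 0 := by
    intro x
    unfold c
    rw [← sum_filter, sum_const, nsmul_eq_mul, mul_one]
    congr 2
    ext y
    rw [mem_inter, mem_filter, and_comm]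
  simp_rw [h1]
  rw [sum_comm]
  have h2 : ∀ y ∈ R, ∑ x : V, (if y ∈ N x then (1 : ℝ) else 0) = d := by
    intro y _
    rw [← sum_filter, sum_const, nsmul_eq_mul, mul_one, ← hcard y]
    congr 2
    ext x
    rw [mem_filter, hsym x y]
    simp
  rw [sum_congr rfl h2, sum_const, nsmul_eq_mul, mul_comm]

theorem sample (hcard : ∀ x, (N x).card = d) (hsym : ∀ x y, y ∈ N x ↔ x ∈ N y) (q : ℝ)
    (hq : 1 ≤ q) (A : Finset V) :
    ∃ R ⊆ A, ∑ x, (q * c N R x - c N A x) ^ 2 ≤ A.card * ((q - 1) * d) := by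
  induction A using Finset.induction with
  | empty =>
    refine ⟨∅, subset_rfl, ?_⟩
    simp [c]
  | insert y A hy ih =>
    obtain ⟨R, hR, h⟩ := ih
    have hyR : y ∉ R := fun h' => hy (hR h')
    obtain ⟨w, hw⟩ : ∃ w : V → ℝ, w = fun x => if y ∈ N x then 1 else 0 := ⟨_, rfl⟩
    obtain ⟨u, hu⟩ : ∃ u : V → ℝ, u = fun x => q * c N R x - c N A x := ⟨_, rfl⟩
    have hu' : ∑ x, (q * c N R x - c N A x) ^ 2 = ∑ x, u x ^ 2 := by rw [hu]
    have hw2 : ∑ x, w x ^ 2 = d := by
      rw [← hcard y, hw]
      have h1 : ∀ x : V, (if y ∈ N x then (1 : ℝ) else 0) ^ 2 = if y ∈ N x then 1 else 0 := by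
        intro x
        split_ifs <;> norm_num
      simp_rw [h1]
      rw [← sum_filter, sum_const, nsmul_eq_mul, mul_one]
      congr 2
      ext x
      rw [mem_filter, hsym x y]
      simp
    have e1 : ∑ x, (q * c N (insert y R) x - c N (insert y A) x) ^ 2 =
        ∑ x, u x ^ 2 + 2 * (q - 1) * ∑ x, u x * w x + (q - 1) ^ 2 * d := by
      rw [← hw2, mul_sum, mul_sum, ← sum_add_distrib, ← sum_add_distrib]
      refine sum_congr rfl fun x _ => ?_
      rw [c_insert N hyR, c_insert N hy, hu, hw]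
      simp only
      ring
    have e2 : ∑ x, (q * c N R x - c N (insert y A) x) ^ 2 =
        ∑ x, u x ^ 2 - 2 * ∑ x, u x * w x + d := by
      rw [← hw2, mul_sum, ← sum_sub_distrib, ← sum_add_distrib]
      refine sum_congr rfl fun x _ => ?_
      rw [c_insert N hy, hu, hw]
      simp only
      ring
    rw [card_insert_of_notMem hy]
    push_cast
    by_contra hcon
    push Not at hcon
    have h1 := hcon (insert y R) (insert_subset_insert y hR)
    have h2 := hcon R (hR.trans (subset_insert y A))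
    rw [e1] at h1
    rw [e2] at h2
    rw [hu'] at h
    have h3 : (q - 1) * (((A.card : ℝ) + 1) * ((q - 1) * d)) ≤
        (q - 1) * (∑ x, u x ^ 2 - 2 * ∑ x, u x * w x + d) :=
      mul_le_mul_of_nonneg_left h2.le (by linarith)
    have h4 : q * ∑ x, u x ^ 2 ≤ q * (A.card * ((q - 1) * d)) :=
      mul_le_mul_of_nonneg_left h (by linarith)
    nlinarith

end

end ModCV

open ModCV in
theorem cv (hCN : StmtCN) : StmtCV := by
  classical
  intro ε₀ hε₀
  obtain ⟨ε, hε, hε1, hεε⟩ : ∃ ε : ℝ, 0 < ε ∧ ε ≤ 1 ∧ ε ≤ ε₀ :=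
    ⟨min ε₀ 1, lt_min hε₀ one_pos, min_le_right _ _, min_le_left _ _⟩
  obtain ⟨D, hD, hS⟩ := hCN (ε / 2) (by positivity)
  have hDr : (1 : ℝ) ≤ D := by exact_mod_cast hD
  obtain ⟨q, hq⟩ : ∃ q : ℝ, q = 2 * D := ⟨_, rfl⟩
  have hq1 : 1 ≤ q := by rw [hq]; linarith
  have hq0 : 0 < q := by linarith
  obtain ⟨δ, hδ⟩ : ∃ δ : ℝ, δ = ε / 4 := ⟨_, rfl⟩
  have hδ0 : 0 < δ := by rw [hδ]; positivity
  obtain ⟨d₀, hd₀⟩ := exists_nat_ge (q / δ ^ 2 + D * q / δ ^ 2 + 4 * q / (δ ^ 2 * ε) + 1)
  refine ⟨d₀, fun d hd V _ N hcard hsym => ?_⟩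
  have hdr : (d₀ : ℝ) ≤ d := by exact_mod_cast hd
  have p1 : 0 < q / δ ^ 2 := by positivity
  have p2 : 0 < D * q / δ ^ 2 := by positivity
  have p3 : 0 < 4 * q / (δ ^ 2 * ε) := by positivity
  have hd0 : (0 : ℝ) < d := by linarith
  have b1 : q ≤ δ ^ 2 * d := by
    have : q / δ ^ 2 ≤ d := by linarith
    rw [div_le_iff₀ (by positivity)] at this
    linarith
  have b2 : D * q ≤ δ ^ 2 * d := by
    have : D * q / δ ^ 2 ≤ d := by linarith
    rw [div_le_iff₀ (by positivity)] at this
    linarith
  have b3 : 4 * q ≤ δ ^ 2 * ε * d := by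
    have : 4 * q / (δ ^ 2 * ε) ≤ d := by linarith
    rw [div_le_iff₀ (by positivity)] at this
    linarith
  obtain ⟨hfin, hcardS⟩ := hS V
  obtain ⟨n, hn⟩ : ∃ n : ℝ, n = Fintype.card V := ⟨_, rfl⟩
  have hn0 : 0 ≤ n := by rw [hn]; positivity
  let fam : (V → ℕ) × (V → ℕ) → V → ℝ := fun h x =>
    if h.2 x ≠ 0 then (d : ℝ) else q * ((∑ y ∈ N x, h.1 y : ℕ) : ℝ) + δ * d
  refine ⟨(hfin.toFinset ×ˢ hfin.toFinset).image fam, ?_, ?_⟩
  · have h1 : (((hfin.toFinset ×ˢ hfin.toFinset).image fam).card : ℝ) ≤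
        (hfin.toFinset.card : ℝ) * hfin.toFinset.card := by
      have := card_image_le (s := hfin.toFinset ×ˢ hfin.toFinset) (f := fam)
      rw [card_product] at this
      exact_mod_cast this
    rw [Set.ncard_eq_toFinset_card _ hfin] at hcardS
    rw [← hn] at hcardS ⊢
    have h2 : Real.exp (ε / 2 * n) * Real.exp (ε / 2 * n) = Real.exp (ε * n) := by
      rw [← Real.exp_add]
      congr 1
      ring
    have h3 : Real.exp (ε * n) ≤ Real.exp (ε₀ * n) :=
      Real.exp_le_exp.mpr (mul_le_mul_of_nonneg_right hεε hn0)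
    have h4 : (hfin.toFinset.card : ℝ) * hfin.toFinset.card ≤
        Real.exp (ε / 2 * n) * Real.exp (ε / 2 * n) :=
      mul_le_mul hcardS hcardS (Nat.cast_nonneg _) (Real.exp_pos _).le
    linarith
  · intro a ha
    obtain ⟨A, hA⟩ : ∃ A : Finset V, A = univ.filter fun x => a x = 1 := ⟨_, rfl⟩
    have haA : ∀ x, a x = if x ∈ A then 1 else 0 := by
      intro x
      rw [hA]
      simp only [mem_filter, mem_univ, true_and]
      have := ha x
      split_ifs with h
      · exact h
      · omega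
    have hsumA : ∀ T : Finset V, ∑ y ∈ T, a y = (T ∩ A).card := by
      intro T
      simp_rw [haA]
      rw [← sum_filter, sum_const, smul_eq_mul, mul_one, filter_mem_eq_inter]
    have hAn : (A.card : ℝ) ≤ n := by
      rw [hn]
      exact_mod_cast card_le_univ A
    obtain ⟨R, hRA, hR⟩ := sample N d hcard hsym q hq1 A
    have hE : ∑ x, (q * c N R x - c N A x) ^ 2 ≤ n * (q * d) := by
      refine hR.trans ?_
      apply mul_le_mul hAn _ (by
        have : 0 ≤ q - 1 := by linarith
        positivity) hn0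
      apply mul_le_mul_of_nonneg_right _ hd0.le
      linarith
    have hsumR := c_sum N d hcard hsym R
    have hsumA' := c_sum N d hcard hsym A
    -- the size of `R`
    have hRq : q * R.card - A.card ≤ δ * n := by
      have h1 : (∑ x, (q * c N R x - c N A x)) ^ 2 ≤ n * ∑ x, (q * c N R x - c N A x) ^ 2 := by
        rw [hn]
        have := sq_sum_le_card_mul_sum_sq (s := (univ : Finset V))
          (f := fun x => q * c N R x - c N A x)
        rwa [card_univ] at this
      have h2 : ∑ x, (q * c N R x - c N A x) = d * (q * R.card - A.card) := by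
        rw [sum_sub_distrib, ← mul_sum, hsumR, hsumA']
        ring
      rw [h2] at h1
      have h3 : (d * (q * R.card - A.card)) ^ 2 ≤ (d * (δ * n)) ^ 2 := by
        refine h1.trans ((mul_le_mul_of_nonneg_left hE hn0).trans ?_)
        have h4 : n * (n * (q * d)) ≤ n * (n * ((δ ^ 2 * d) * d)) := by gcongr
        refine h4.trans (le_of_eq ?_)
        ring
      have h5 := abs_le_of_sq_le_sq h3 (by positivity)
      have h6 := (abs_le.mp h5).2
      exact le_of_mul_le_mul_left h6 hd0
    have hDR : D * (R.card : ℝ) ≤ n := by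
      have h1 : q * R.card ≤ 2 * n := by
        have : δ * n ≤ 1 * n := mul_le_mul_of_nonneg_right (by rw [hδ]; linarith) hn0
        linarith
      rw [hq] at h1
      linarith
    -- the exceptional points
    obtain ⟨B, hB⟩ : ∃ B : Finset V, B = univ.filter fun x => q * c N R x + δ * d < c N A x :=
      ⟨_, rfl⟩
    have hBE : B.card * (δ * d) ^ 2 ≤ n * (q * d) := by
      refine le_trans ?_ hE
      have h1 : ∑ x ∈ B, (δ * d) ^ 2 ≤ ∑ x ∈ B, (q * c N R x - c N A x) ^ 2 := by
        refine sum_le_sum fun x hx => ?_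
        rw [hB, mem_filter] at hx
        have h2 := hx.2
        have h3 : 0 ≤ δ * d := by positivity
        nlinarith
      rw [sum_const, nsmul_eq_mul] at h1
      exact h1.trans (sum_le_sum_of_subset_of_nonneg (subset_univ _) fun x _ _ => sq_nonneg _)
    have hBE' : B.card * (δ ^ 2 * d) ≤ n * q := by
      have h1 : (B.card * (δ ^ 2 * d)) * d ≤ (n * q) * d := by
        calc (B.card * (δ ^ 2 * d)) * d = B.card * (δ * d) ^ 2 := by ring
          _ ≤ n * (q * d) := hBE
          _ = (n * q) * d := by ring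
      exact le_of_mul_le_mul_right h1 hd0
    have hDB : D * (B.card : ℝ) ≤ n := by
      have h1 : (B.card : ℝ) * (D * q) ≤ B.card * (δ ^ 2 * d) :=
        mul_le_mul_of_nonneg_left b2 (Nat.cast_nonneg _)
      have h2 : (D * (B.card : ℝ)) * q ≤ n * q := by linarith
      exact le_of_mul_le_mul_right h2 hq0
    have hBε : (B.card : ℝ) ≤ ε / 4 * n := by
      have h1 : (B.card : ℝ) * (4 * q) ≤ B.card * (δ ^ 2 * ε * d) :=
        mul_le_mul_of_nonneg_left b3 (Nat.cast_nonneg _)
      have h2 : B.card * (δ ^ 2 * ε * d) ≤ n * q * ε := by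
        calc B.card * (δ ^ 2 * ε * d) = (B.card * (δ ^ 2 * d)) * ε := by ring
          _ ≤ (n * q) * ε := mul_le_mul_of_nonneg_right hBE' hε.le
      have h3 : (B.card : ℝ) * q ≤ (ε / 4 * n) * q := by linarith
      exact le_of_mul_le_mul_right h3 hq0
    -- indicator functions are in the finite set
    have hind : ∀ T : Finset V, D * (T.card : ℝ) ≤ n →
        (fun x => if x ∈ T then 1 else 0 : V → ℕ) ∈ hfin.toFinset := by
      intro T hT
      rw [Set.Finite.mem_toFinset]
      have h1 : Nat.card {x // (if x ∈ T then 1 else 0 : ℕ) ≠ 0} = T.card := by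
        have : ∀ x, ((if x ∈ T then 1 else 0 : ℕ) ≠ 0) ↔ x ∈ T := by
          intro x
          split_ifs with h <;> simp [h]
        simp_rw [this]
        simp
      refine ⟨?_, ?_⟩
      · rw [h1]
        rw [hn] at hT
        exact_mod_cast hT
      · have h2 : ∑ x, (if x ∈ T then 1 else 0 : ℕ) = T.card := by simp
        rw [h2]
        have := card_le_univ T
        omega
    refine ⟨fam (fun x => if x ∈ R then 1 else 0, fun x => if x ∈ B then 1 else 0), ?_, ?_, ?_⟩
    · apply mem_image_of_mem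
      rw [mem_product]
      exact ⟨hind R hDR, hind B hDB⟩
    · intro x
      rw [hsumA]
      show c N A x ≤ _
      have hc : (((∑ y ∈ N x, (if y ∈ R then 1 else 0 : ℕ) : ℕ)) : ℝ) = c N R x := by
        unfold c
        rw [← sum_filter, sum_const, smul_eq_mul, mul_one, filter_mem_eq_inter]
      show c N A x ≤ if (if x ∈ B then 1 else 0 : ℕ) ≠ 0 then (d : ℝ) else
        q * ((∑ y ∈ N x, (if y ∈ R then 1 else 0 : ℕ) : ℕ) : ℝ) + δ * d
      rw [hc]
      by_cases h : x ∈ B
      · rw [if_pos h, if_pos one_ne_zero]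
        unfold c
        rw [← hcard x]
        exact_mod_cast card_le_card inter_subset_left
      · rw [if_neg h, if_neg (not_not.mpr rfl)]
        rw [hB, mem_filter] at h
        by_contra hcon
        exact h ⟨mem_univ x, not_le.mp hcon⟩
    · have hg : ∀ x, fam (fun x => if x ∈ R then 1 else 0, fun x => if x ∈ B then 1 else 0) x ≤
          q * c N R x + δ * d + if x ∈ B then (d : ℝ) else 0 := by
        intro x
        have hc : (((∑ y ∈ N x, (if y ∈ R then 1 else 0 : ℕ) : ℕ)) : ℝ) = c N R x := by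
          unfold c
          rw [← sum_filter, sum_const, smul_eq_mul, mul_one, filter_mem_eq_inter]
        show (if (if x ∈ B then 1 else 0 : ℕ) ≠ 0 then (d : ℝ) else
          q * ((∑ y ∈ N x, (if y ∈ R then 1 else 0 : ℕ) : ℕ) : ℝ) + δ * d) ≤ _
        rw [hc]
        have hc0 : 0 ≤ c N R x := Nat.cast_nonneg _
        have h1 : 0 ≤ q * c N R x + δ * d := by positivity
        by_cases h : x ∈ B
        · rw [if_pos h, if_pos one_ne_zero, if_pos h]
          linarith
        · rw [if_neg h, if_neg (not_not.mpr rfl), if_neg h]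
          linarith
      have h1 : ∑ x, fam (fun x => if x ∈ R then 1 else 0, fun x => if x ∈ B then 1 else 0) x ≤
          q * (d * R.card) + n * (δ * d) + d * B.card := by
        refine (sum_le_sum fun x _ => hg x).trans (le_of_eq ?_)
        rw [sum_add_distrib, sum_add_distrib, ← mul_sum, hsumR, sum_const, nsmul_eq_mul, card_univ,
          ← hn]
        congr 1
        rw [sum_ite_mem, univ_inter, sum_const, nsmul_eq_mul, mul_comm]
      refine h1.trans ?_
      have h2 : ((∑ x, a x : ℕ) : ℝ) = A.card := by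
        rw [hsumA, univ_inter]
      rw [h2, ← hn]
      have h3 : q * (d * R.card) + n * (δ * d) + d * B.card =
          d * (q * R.card + δ * n + B.card) := by ring
      rw [h3]
      apply mul_le_mul_of_nonneg_left _ hd0.le
      have h4 : ε * n ≤ ε₀ * n := mul_le_mul_of_nonneg_right hεε hn0
      rw [hδ] at hRq ⊢
      have h5 : 0 ≤ ε * n := by positivity
      linarith

end Pool.Agent.T6.H90.ST
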