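import Pool.Agent.T6.H90.ST.Defs

set_option autoImplicit false

open Filter Topology

namespace Pool.Agent.T6.H90.ST

namespace ModFA

/-- Stirling bound -/
theorem fact_le (c : ℕ) (hc : 1 ≤ c) :
    (c.factorial : ℝ) ≤ (Real.exp 1 * c) * ((c : ℝ) / Real.exp 1) ^ c := by
  have hc0 : (0 : ℝ) < c := by exact_mod_cast hc
  have he : 0 < Real.exp 1 := Real.exp_pos 1
  have h1 : Stirling.stirlingSeq c ≤ Stirling.stirlingSeq 1 := by
    obtain ⟨n, rfl⟩ : ∃ n, c = n + 1 := ⟨c - 1, by omega⟩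
    exact Stirling.stirlingSeq'_antitone (Nat.zero_le n)
  rw [Stirling.stirlingSeq_one] at h1
  have h2 : 0 < Real.sqrt (2 * (c : ℝ)) * ((c : ℝ) / Real.exp 1) ^ c := by positivity
  have h3 : (c.factorial : ℝ) = Stirling.stirlingSeq c *
      (Real.sqrt (2 * (c : ℝ)) * ((c : ℝ) / Real.exp 1) ^ c) := by
    unfold Stirling.stirlingSeq
    rw [div_mul_cancel₀]
    exact h2.ne'
  have h4 : Real.sqrt (2 * (c : ℝ)) ≤ Real.sqrt 2 * c := by
    rw [Real.sqrt_mul (by norm_num)]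
    apply mul_le_mul_of_nonneg_left _ (Real.sqrt_nonneg _)
    rw [Real.sqrt_le_left hc0.le]
    have : (1 : ℝ) ≤ c := by exact_mod_cast hc
    nlinarith
  have hs2 : 0 < Real.sqrt 2 := by positivity
  calc (c.factorial : ℝ) = Stirling.stirlingSeq c *
      (Real.sqrt (2 * (c : ℝ)) * ((c : ℝ) / Real.exp 1) ^ c) := h3
    _ ≤ Real.exp 1 / Real.sqrt 2 * (Real.sqrt (2 * (c : ℝ)) * ((c : ℝ) / Real.exp 1) ^ c) :=
        mul_le_mul_of_nonneg_right h1 h2.le
    _ ≤ Real.exp 1 / Real.sqrt 2 * ((Real.sqrt 2 * c) * ((c : ℝ) / Real.exp 1) ^ c) := by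
        apply mul_le_mul_of_nonneg_left _ (by positivity)
        exact mul_le_mul_of_nonneg_right h4 (by positivity)
    _ = (Real.exp 1 * c) * ((c : ℝ) / Real.exp 1) ^ c := by
        field_simp

theorem bb_le (c : ℕ) (hc : 1 ≤ c) :
    bb c ≤ (c : ℝ) / Real.exp 1 * (Real.exp 1 * c) ^ ((1 : ℝ) / c) := by
  have hc0 : (0 : ℝ) < c := by exact_mod_cast hc
  have he : 0 < Real.exp 1 := Real.exp_pos 1
  unfold bb
  have h1 := Real.rpow_le_rpow (by positivity) (fact_le c hc) (show (0 : ℝ) ≤ 1 / c by positivity)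
  refine le_trans h1 (le_of_eq ?_)
  rw [Real.mul_rpow (by positivity) (by positivity), mul_comm]
  congr 1
  rw [← Real.rpow_natCast, ← Real.rpow_mul (by positivity), mul_one_div_cancel hc0.ne', Real.rpow_one]

theorem bb_le' (c : ℕ) : bb c ≤ (c : ℝ) + 1 := by
  rcases Nat.eq_zero_or_pos c with h | h
  · subst h
    unfold bb
    simp
  · have hc0 : (0 : ℝ) < c := by exact_mod_cast h
    unfold bb
    have h1 : (c.factorial : ℝ) ≤ (c : ℝ) ^ c := by exact_mod_cast Nat.factorial_le_pow c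
    have h2 := Real.rpow_le_rpow (by positivity) h1 (show (0 : ℝ) ≤ 1 / c by positivity)
    rw [← Real.rpow_natCast, ← Real.rpow_mul hc0.le, mul_one_div_cancel hc0.ne', Real.rpow_one] at h2
    linarith

theorem lim : Tendsto (fun c : ℕ => (Real.exp 1 * (c : ℝ)) ^ ((1 : ℝ) / c)) atTop (𝓝 1) := by
  have he : 0 < Real.exp 1 := Real.exp_pos 1
  have h1 := tendsto_rpow_div_mul_add (Real.exp 1) 1 0 zero_ne_one
  have h2 : Tendsto (fun c : ℕ => Real.exp 1 * (c : ℝ)) atTop atTop :=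
    Tendsto.const_mul_atTop he tendsto_natCast_atTop_atTop
  have h3 := h1.comp h2
  refine h3.congr (fun c => ?_)
  show (Real.exp 1 * (c : ℝ)) ^ (Real.exp 1 / (1 * (Real.exp 1 * (c : ℝ)) + 0)) = _
  congr 1
  rw [one_mul, add_zero]
  rcases Nat.eq_zero_or_pos c with h | h
  · subst h; simp
  · have hc0 : (0 : ℝ) < c := by exact_mod_cast h
    field_simp

end ModFA

theorem fa : StmtFA := by
  intro δ hδ
  have he : 0 < Real.exp 1 := Real.exp_pos 1
  have h1 := ModFA.lim.eventually (Iio_mem_nhds (show (1 : ℝ) < 1 + δ by linarith))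
  obtain ⟨c0, hc0⟩ := Filter.eventually_atTop.mp h1
  refine ⟨Real.exp 1 * (c0 + 2), ?_, ?_⟩
  · have : (0 : ℝ) ≤ c0 := Nat.cast_nonneg c0
    nlinarith
  · intro c
    rw [le_div_iff₀ he]
    rcases lt_or_ge c c0 with h | h
    · have h2 := ModFA.bb_le' c
      have h3 : (c : ℝ) ≤ c0 := by exact_mod_cast h.le
      have h4 : (0 : ℝ) ≤ (1 + δ) * c := by positivity
      nlinarith
    · rcases Nat.eq_zero_or_pos c with hz | hz
      · have h2 := ModFA.bb_le' c
        have h3 : (c : ℝ) = 0 := by exact_mod_cast hz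
        have h4 : (0 : ℝ) ≤ c0 := Nat.cast_nonneg c0
        rw [h3] at h2 ⊢
        nlinarith
      · have h2 := ModFA.bb_le c hz
        have h3 : (Real.exp 1 * (c : ℝ)) ^ ((1 : ℝ) / c) < 1 + δ := hc0 c h
        have hcp : (0 : ℝ) < c := by exact_mod_cast hz
        have h4 : (c : ℝ) / Real.exp 1 * (Real.exp 1 * c) ^ ((1 : ℝ) / c) ≤
            (c : ℝ) / Real.exp 1 * (1 + δ) := mul_le_mul_of_nonneg_left h3.le (by positivity)
        have h5 : bb c * Real.exp 1 ≤ ((c : ℝ) / Real.exp 1 * (1 + δ)) * Real.exp 1 :=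
          mul_le_mul_of_nonneg_right (le_trans h2 h4) he.le
        have h6 : ((c : ℝ) / Real.exp 1 * (1 + δ)) * Real.exp 1 = (1 + δ) * c := by
          field_simp
        have h7 : 0 ≤ Real.exp 1 * ((c0 : ℝ) + 2) := by positivity
        linarith

end Pool.Agent.T6.H90.ST
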