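import Pool.Agent.T6.H90.ST.Defs

set_option autoImplicit false

/-!
# Module L1: few points with a small period
-/

namespace Pool.Agent.T6.H90.ST

open Finset

namespace ModL1

section

variable {V : Type} [Fintype V] [DecidableEq V] (N : V → Finset V) (d : ℕ)

/-- the functions for which `k` is the least period of `x` -/
noncomputable def A (x : V) (k : ℕ) : Finset (V → V) :=
  @Finset.filter _ (fun f => f^[k] x = x ∧ ∀ j, j ∈ Ioo 0 k → f^[j] x ≠ x)
    (fun _ => Classical.propDecidable _) (Fintype.piFinset N)

theorem mem_A {f : V → V} {x : V} {k : ℕ} : f ∈ A N x k ↔ f ∈ Fintype.piFinset N ∧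
    f^[k] x = x ∧ ∀ j, j ∈ Ioo 0 k → f^[j] x ≠ x := by
  unfold A
  exact @Finset.mem_filter _ _ (fun _ => Classical.propDecidable _) _ _

theorem iter_update {f : V → V} {x : V} {m : ℕ} {w : V} (h : ∀ j, j < m → f^[j] x ≠ f^[m] x) :
    ∀ j, j ≤ m → (Function.update f (f^[m] x) w)^[j] x = f^[j] x := by
  intro j
  induction j with
  | zero => intro _; rfl
  | succ j ih =>
    intro hj
    rw [Function.iterate_succ_apply', Function.iterate_succ_apply', ih (by omega),
      Function.update_of_ne (h j (by omega))]

theorem dist_of {f : V → V} {x : V} {m : ℕ} (h1 : f^[m + 1] x = x)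
    (h2 : ∀ j, j ∈ Ioo 0 (m + 1) → f^[j] x ≠ x) : ∀ j, j < m → f^[j] x ≠ f^[m] x := by
  intro j hj he
  apply h2 (j + 1) (by rw [mem_Ioo]; omega)
  rw [Function.iterate_succ_apply', he, ← Function.iterate_succ_apply' f m x]
  exact h1

theorem card_A (hcard : ∀ x, (N x).card = d) (x : V) (m : ℕ) :
    d * (A N x (m + 1)).card ≤ d ^ Fintype.card V := by
  have h1 : ((A N x (m + 1)).sigma fun f => N (f^[m] x)).card = d * (A N x (m + 1)).card := by
    rw [card_sigma]
    simp_rw [hcard]
    rw [sum_const, smul_eq_mul, mul_comm]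
  have h2 : (Fintype.piFinset N).card = d ^ Fintype.card V := by
    rw [Fintype.card_piFinset]
    simp_rw [hcard]
    rw [prod_const, card_univ]
  rw [← h1, ← h2]
  apply card_le_card_of_injOn (fun p => Function.update p.1 (p.1^[m] x) p.2)
  · rintro ⟨f, w⟩ hp
    rw [mem_coe, mem_sigma] at hp
    have hf := ((mem_A N).mp hp.1).1
    rw [Fintype.mem_piFinset] at hf
    rw [mem_coe, Fintype.mem_piFinset]
    intro z
    show Function.update f (f^[m] x) w z ∈ N z
    by_cases hz : z = f^[m] x
    · rw [hz, Function.update_self]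
      exact hp.2
    · rw [Function.update_of_ne hz]
      exact hf z
  · rintro ⟨f, w⟩ hp ⟨f', w'⟩ hp' he
    rw [mem_coe, mem_sigma] at hp hp'
    obtain ⟨_, h3, h4⟩ := (mem_A N).mp hp.1
    obtain ⟨_, h3', h4'⟩ := (mem_A N).mp hp'.1
    simp only at he h3 h4 h3' h4'
    have h5 := iter_update (w := w) (dist_of h3 h4) m le_rfl
    have h5' := iter_update (w := w') (dist_of h3' h4') m le_rfl
    rw [← he, h5] at h5'
    -- the points agree
    have h6 : w = w' := by
      have := congrFun he (f^[m] x)
      rw [Function.update_self, h5', Function.update_self] at this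
      exact this
    have h7 : f = f' := by
      funext z
      by_cases hz : z = f^[m] x
      · have e1 : f z = x := by
          rw [hz, ← Function.iterate_succ_apply' f m x]
          exact h3
        have e2 : f' z = x := by
          rw [hz, h5', ← Function.iterate_succ_apply' f' m x]
          exact h3'
        rw [e1, e2]
      · have := congrFun he z
        rw [Function.update_of_ne hz, Function.update_of_ne (by rw [← h5']; exact hz)] at this
        exact this
    subst h7
    subst h6
    rfl

end

end ModL1

open ModL1 in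
theorem l1 : StmtL1 := by
  classical
  intro V _ N d K hK hcard
  obtain ⟨n, hn⟩ : ∃ n, n = Fintype.card V := ⟨_, rfl⟩
  have hFun : (Fintype.piFinset N).card = d ^ n := by
    rw [Fintype.card_piFinset, hn]
    simp_rw [hcard]
    rw [prod_const, card_univ]
  let X : (V → V) → ℕ := fun f => (univ.filter fun x => ∃ k, 1 ≤ k ∧ k ≤ K ∧ f^[k] x = x).card
  have hX : ∀ f : V → V, Nat.card {x // ∃ k, 1 ≤ k ∧ k ≤ K ∧ f^[k] x = x} = X f := by
    intro f
    rw [Nat.card_eq_fintype_card, Fintype.card_subtype]
  have hset : {f : V → V | (∀ x, f x ∈ N x) ∧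
      d * Nat.card {x // ∃ k, 1 ≤ k ∧ k ≤ K ∧ f^[k] x = x} ≤ 2 * Fintype.card V * K} =
      (((Fintype.piFinset N).filter fun f => d * X f ≤ 2 * n * K : Finset (V → V)) :
        Set (V → V)) := by
    ext f
    rw [Set.mem_ofPred_eq, mem_coe, mem_filter, Fintype.mem_piFinset, hX, hn]
  rw [hset, Set.ncard_coe_finset, ← hn]
  -- the sum
  have hsum : d * ∑ f ∈ Fintype.piFinset N, X f ≤ n * K * d ^ n := by
    have h1 : ∀ f ∈ Fintype.piFinset N, X f ≤
        ∑ x : V, ∑ m ∈ range K, if f ∈ A N x (m + 1) then 1 else 0 := by
      intro f hf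
      show (univ.filter fun x => ∃ k, 1 ≤ k ∧ k ≤ K ∧ f^[k] x = x).card ≤ _
      rw [card_filter]
      refine sum_le_sum fun x _ => ?_
      split_ifs with h
      · have hex : ∃ m, f^[m + 1] x = x := by
          obtain ⟨k, hk1, _, hk⟩ := h
          exact ⟨k - 1, by rw [Nat.sub_add_cancel hk1]; exact hk⟩
        have hle : Nat.find hex < K := by
          obtain ⟨k, hk1, hk2, hk⟩ := h
          have := Nat.find_min' hex (m := k - 1) (by rw [Nat.sub_add_cancel hk1]; exact hk)
          omega
        have hmem : f ∈ A N x (Nat.find hex + 1) := by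
          refine (mem_A N).mpr ⟨hf, Nat.find_spec hex, fun j hj he => ?_⟩
          rw [mem_Ioo] at hj
          have := Nat.find_min' hex (m := j - 1) (by rw [Nat.sub_add_cancel hj.1]; exact he)
          omega
        calc 1 = if f ∈ A N x (Nat.find hex + 1) then 1 else 0 := by rw [if_pos hmem]
          _ ≤ ∑ m ∈ range K, if f ∈ A N x (m + 1) then 1 else 0 :=
            single_le_sum (f := fun m => if f ∈ A N x (m + 1) then 1 else 0)
              (fun _ _ => Nat.zero_le _) (mem_range.mpr hle)
      · exact Nat.zero_le _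
    have h2 : ∑ f ∈ Fintype.piFinset N, X f ≤ ∑ x : V, ∑ m ∈ range K, (A N x (m + 1)).card := by
      refine (sum_le_sum h1).trans (le_of_eq ?_)
      rw [sum_comm]
      refine sum_congr rfl fun x _ => ?_
      rw [sum_comm]
      refine sum_congr rfl fun m _ => ?_
      rw [← card_filter]
      congr 1
      ext f
      rw [mem_filter]
      constructor
      · exact fun h => h.2
      · exact fun h => ⟨((mem_A N).mp h).1, h⟩
    refine (Nat.mul_le_mul_left d h2).trans ?_
    rw [mul_sum]
    have h3 : ∀ x ∈ (univ : Finset V), d * ∑ m ∈ range K, (A N x (m + 1)).card ≤ K * d ^ n := by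
      intro x _
      rw [mul_sum]
      have h4 : ∀ m ∈ range K, d * (A N x (m + 1)).card ≤ d ^ n := fun m _ => by
        rw [hn]
        exact card_A N d hcard x m
      refine (sum_le_sum h4).trans ?_
      rw [sum_const, card_range, smul_eq_mul]
    refine (sum_le_sum h3).trans ?_
    rw [sum_const, card_univ, smul_eq_mul, ← hn, mul_assoc]
  -- Markov
  have hbad : 2 * ((Fintype.piFinset N).filter fun f => ¬ d * X f ≤ 2 * n * K).card ≤ d ^ n := by
    rcases Nat.eq_zero_or_pos n with h0 | h0
    · have hXz : ∀ f : V → V, X f = 0 := by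
        intro f
        have : X f ≤ n := by
          rw [hn]
          exact card_le_univ _
        omega
      have : ((Fintype.piFinset N).filter fun f => ¬ d * X f ≤ 2 * n * K) = ∅ := by
        apply filter_eq_empty_iff.mpr
        intro f _
        rw [hXz f]
        simp
      rw [this, card_empty]
      exact Nat.zero_le _
    · have h1 : ((Fintype.piFinset N).filter fun f => ¬ d * X f ≤ 2 * n * K).card * (2 * n * K) ≤
          d * ∑ f ∈ Fintype.piFinset N, X f := by
        rw [mul_sum, ← smul_eq_mul, ← sum_const]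
        refine le_trans ?_ (sum_le_sum_of_subset (filter_subset (fun f => ¬ d * X f ≤ 2 * n * K) _))
        refine sum_le_sum fun f hf => ?_
        have := (mem_filter.mp hf).2
        omega
      have h2 := h1.trans hsum
      have h3 : 0 < n * K := Nat.mul_pos h0 (by omega)
      have h4 : (2 * ((Fintype.piFinset N).filter fun f => ¬ d * X f ≤ 2 * n * K).card) * (n * K) ≤
          d ^ n * (n * K) := by
        calc _ = ((Fintype.piFinset N).filter fun f => ¬ d * X f ≤ 2 * n * K).card *
              (2 * n * K) := by ring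
          _ ≤ n * K * d ^ n := h2
          _ = _ := by ring
      exact Nat.le_of_mul_le_mul_right h4 h3
  have hsplit := card_filter_add_card_filter_not (s := Fintype.piFinset N)
    (fun f => d * X f ≤ 2 * n * K)
  rw [hFun] at hsplit
  have : d ^ n ≤ 2 * ((Fintype.piFinset N).filter fun f => d * X f ≤ 2 * n * K).card := by omega
  exact_mod_cast this

end Pool.Agent.T6.H90.ST
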