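import Pool.Agent.T6.H90.ST.Defs

/-! # Project ST, module PH: one phase of the counting of embeddings -/

set_option autoImplicit false

namespace Pool.Agent.T6.H90.ST

theorem ph (hBR : StmtBR) : StmtPH := by
  intro V W Θ _ _ N par dep idx vt B F φ₀ C h0 hC hdep hinj hN hB hvt hpar hex
  classical
  choose! f hf using hex
  have hmem : ∀ φ ∈ F, ∀ x ∈ C, φ.symm x ∈ B := fun φ hφ x hx =>
    (hB φ hφ x).2 ((hC x).1 hx)
  -- the embedding attached to `φ`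
  have hbet : ∀ φ : F, ∃ β : {x // x ∈ C} ↪ {t // t ∈ B},
      ∀ x, ((β x : {t // t ∈ B}) : W) = f φ.1 (φ.1.symm x) := by
    intro φ
    refine ⟨⟨fun x => ⟨f φ.1 (φ.1.symm x), (hf φ.1 φ.2 _ (hmem φ.1 φ.2 x x.2)).1⟩, ?_⟩,
      fun x => rfl⟩
    intro x1 x2 h
    have h' : f φ.1 (φ.1.symm x1) = f φ.1 (φ.1.symm x2) := congrArg Subtype.val h
    obtain ⟨-, a1, a2, -⟩ := hf φ.1 φ.2 _ (hmem φ.1 φ.2 x1 x1.2)
    obtain ⟨-, b1, b2, -⟩ := hf φ.1 φ.2 _ (hmem φ.1 φ.2 x2 x2.2)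
    rw [h'] at a1 a2
    have c1 : par (φ.1.symm x1) = par (φ.1.symm x2) := φ.1.injective (a1.symm.trans b1)
    have c2 : idx (φ.1.symm x1) = idx (φ.1.symm x2) := a2.symm.trans b2
    have c3 := hinj _ (hmem φ.1 φ.2 x1 x1.2) _ (hmem φ.1 φ.2 x2 x2.2) c1 c2
    exact Subtype.ext (φ.1.symm.injective c3)
  choose bet hbeta using hbet
  have hprop : ∀ (φ : F) (x : {x // x ∈ C}), φ₀ (par (bet φ x : W)) ∈ N x ∧
      vt (bet φ x : W) = vt (φ₀.symm x) := by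
    intro φ x
    obtain ⟨-, a1, -, a3⟩ := hf φ.1 φ.2 _ (hmem φ.1 φ.2 x x.2)
    rw [hbeta φ x, a1, a3]
    refine ⟨?_, hvt φ.1 φ.2 x (hmem φ.1 φ.2 x x.2)⟩
    have := hN φ.1 φ.2 _ (hmem φ.1 φ.2 x x.2)
    rwa [Equiv.apply_symm_apply] at this
  -- `φ` on `B` is determined by the embedding
  have hdet : ∀ φ ψ : F, bet φ = bet ψ → ∀ n, ∀ t ∈ B, dep t = n → φ.1 t = ψ.1 t := by
    intro φ ψ hφψ n
    induction n using Nat.strong_induction_on with
    | _ n ih =>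
      intro t ht htn
      have hp : φ.1 (par t) = ψ.1 (par t) := by
        by_cases hpt : par t ∈ B
        · exact ih (dep (par t)) (by rw [← htn]; exact hdep t ht) (par t) hpt rfl
        · rw [hpar φ.1 φ.2 t ht hpt, hpar ψ.1 ψ.2 t ht hpt]
      have hx : φ.1 t ∈ C := by
        rw [hC, ← hB φ.1 φ.2, Equiv.symm_apply_apply]; exact ht
      have hx' : ψ.1 t ∈ C := by
        rw [hC, ← hB ψ.1 ψ.2, Equiv.symm_apply_apply]; exact ht
      obtain ⟨a0, a1, a2, -⟩ := hf φ.1 φ.2 t ht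
      obtain ⟨b0, b1, b2, -⟩ := hf ψ.1 ψ.2 t ht
      have c1 : par (f φ.1 t) = par (f ψ.1 t) := φ₀.injective (a1.trans (hp.trans b1.symm))
      have c2 := hinj _ a0 _ b0 c1 (a2.trans b2.symm)
      have e1 : ((bet φ ⟨φ.1 t, hx⟩ : {t // t ∈ B}) : W) = f φ.1 t := by
        rw [hbeta φ ⟨φ.1 t, hx⟩]
        change f φ.1 (φ.1.symm (φ.1 t)) = _
        rw [Equiv.symm_apply_apply]
      have e2 : ((bet ψ ⟨ψ.1 t, hx'⟩ : {t // t ∈ B}) : W) = f ψ.1 t := by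
        rw [hbeta ψ ⟨ψ.1 t, hx'⟩]
        change f ψ.1 (ψ.1.symm (ψ.1 t)) = _
        rw [Equiv.symm_apply_apply]
      have e3 : bet ψ ⟨φ.1 t, hx⟩ = bet ψ ⟨ψ.1 t, hx'⟩ := by
        rw [← hφψ]
        refine Subtype.ext ?_
        rw [e1, hφψ, e2, c2]
      have := (bet ψ).injective e3
      exact congrArg Subtype.val this
  have hcard : Fintype.card {x // x ∈ C} = Fintype.card {t // t ∈ B} := by
    refine Fintype.card_congr ?_
    exact φ₀.symm.subtypeEquiv fun x => hC x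
  have key := hBR {x // x ∈ C} {t // t ∈ B}
    (fun t x => φ₀ (par t) ∈ N x ∧ vt t = vt (φ₀.symm x)) hcard
  have hprod : ∏ x : {x // x ∈ C}, bb (Nat.card {t : {t // t ∈ B} //
      φ₀ (par t) ∈ N x ∧ vt t = vt (φ₀.symm x)}) =
      ∏ x ∈ C, bb (Nat.card {t // t ∈ B ∧ φ₀ (par t) ∈ N x ∧ vt t = vt (φ₀.symm x)}) := by
    rw [← Finset.prod_coe_sort C]
    refine Finset.prod_congr rfl fun x _ => ?_
    congr 1
    refine Nat.card_congr ?_
    exact Equiv.subtypeSubtypeEquivSubtypeInter (fun t => t ∈ B)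
      (fun t => φ₀ (par t) ∈ N x ∧ vt t = vt (φ₀.symm x))
  rw [hprod] at key
  refine le_trans ?_ key
  have hle : ((fun (φ : W ≃ V) (t : B) => φ t) '' F).ncard ≤
      Nat.card {β : {x // x ∈ C} ↪ {t // t ∈ B} // ∀ x : {x // x ∈ C}, φ₀ (par (β x)) ∈ N x ∧
        vt (β x) = vt (φ₀.symm x)} := by
    rw [← Nat.card_coe_set_eq]
    have hch : ∀ g : ((fun (φ : W ≃ V) (t : B) => φ t) '' F), ∃ φ : F,
        (fun (t : B) => φ.1 t) = g.1 := by
      rintro ⟨g, φ, hφ, rfl⟩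
      exact ⟨⟨φ, hφ⟩, rfl⟩
    choose ch hch using hch
    refine Nat.card_le_card_of_injective
      (fun g => ⟨bet (ch g), fun x => hprop (ch g) x⟩) ?_
    intro g g' h
    have h' : bet (ch g) = bet (ch g') := congrArg Subtype.val h
    refine Subtype.ext ?_
    rw [← hch g, ← hch g']
    funext t
    exact hdet _ _ h' _ t.1 t.2 rfl
  exact_mod_cast hle

end Pool.Agent.T6.H90.ST
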