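import Pool.Agent.T6.H90.ST.Defs

set_option autoImplicit false

/-!
# Assembly of the upper bound for the number of embeddings
-/

namespace Pool.Agent.T6.H90.ST

namespace ModU

/-- the product of nonnegative numbers is at most the exponential bound -/
lemma prod_le {V : Type} [Fintype V] (s : V → ℝ) (hs : ∀ x, 0 ≤ s x) (A η : ℝ) (hA : 0 < A)
    (h : ∑ x, s x ≤ A * ((1 + η) * Fintype.card V)) :
    ∏ x, s x ≤ A ^ Fintype.card V * Real.exp (η * Fintype.card V) := by
  have h1 : ∏ x, s x = A ^ Fintype.card V * ∏ x, (s x / A) := by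
    rw [Finset.prod_div_distrib, Finset.prod_const, Finset.card_univ]
    field_simp
  have h2 : ∏ x, (s x / A) ≤ ∏ x : V, Real.exp (s x / A - 1) := by
    apply Finset.prod_le_prod
    · intro x _; exact div_nonneg (hs x) hA.le
    · intro x _
      have := Real.add_one_le_exp (s x / A - 1)
      linarith
  have h3 : ∏ x : V, Real.exp (s x / A - 1) ≤ Real.exp (η * Fintype.card V) := by
    rw [← Real.exp_sum]
    apply Real.exp_le_exp.2
    rw [Finset.sum_sub_distrib, ← Finset.sum_div, Finset.sum_const, Finset.card_univ]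
    have h4 : (∑ x, s x) / A ≤ (1 + η) * Fintype.card V := by
      rw [div_le_iff₀ hA]
      linarith
    rw [nsmul_eq_mul, mul_one]
    linarith
  rw [h1]
  exact mul_le_mul_of_nonneg_left (h2.trans h3) (by positivity)

lemma n_le_exp {η n : ℝ} (hη : 0 < η) (hn : 2 / η ^ 2 ≤ n) : n ≤ Real.exp (η * n) := by
  have hn0 : 0 < n := lt_of_lt_of_le (by positivity) hn
  have h1 := Real.quadratic_le_exp_of_nonneg (x := η * n) (by positivity)
  have h2 : 2 ≤ n * η ^ 2 := by
    rw [div_le_iff₀ (by positivity)] at hn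
    linarith
  have h3 : n ≤ (η * n) ^ 2 / 2 := by nlinarith
  nlinarith [mul_pos hη hn0]

open Classical in
/-- the number of children of `x` of type `θ` -/
noncomputable def kap {V W Ω : Type} [Fintype W] (r : W) (q : W → V) (vt : W → Ω) (x : V)
    (θ : Ω) : ℕ := (Finset.univ.filter fun t : W => t ≠ r ∧ vt t = θ ∧ q t = x).card

lemma kap_sum {V W Ω : Type} [Fintype V] [Fintype W] [Fintype Ω] (r : W) (q : W → V)
    (vt : W → Ω) : ∑ x : V, ∑ θ : Ω, kap r q vt x θ ≤ Fintype.card W := by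
  classical
  unfold kap
  have h1 : ∀ x, ∑ θ : Ω, (Finset.univ.filter fun t : W => t ≠ r ∧ vt t = θ ∧ q t = x).card =
      (Finset.univ.filter fun t => t ≠ r ∧ q t = x).card := by
    intro x
    rw [Finset.card_eq_sum_card_fiberwise (f := vt) (t := Finset.univ)
      (fun t _ => Finset.mem_coe.2 (Finset.mem_univ _))]
    apply Finset.sum_congr rfl
    intro θ _
    congr 1
    ext t
    simp only [Finset.mem_filter, Finset.mem_univ, true_and]
    tauto
  simp_rw [h1]
  have h2 : (Finset.univ.filter fun t : W => t ≠ r).card =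
      ∑ x, (Finset.univ.filter fun t => t ≠ r ∧ q t = x).card := by
    rw [Finset.card_eq_sum_card_fiberwise (f := q) (t := Finset.univ)
      (fun t _ => Finset.mem_coe.2 (Finset.mem_univ _))]
    apply Finset.sum_congr rfl
    intro x _
    congr 1
    ext t
    simp only [Finset.mem_filter, Finset.mem_univ, true_and]
  rw [← h2]
  exact Finset.card_le_univ _

lemma kap_nb {V W Ω : Type} [Fintype V] [Fintype W] (r : W) (q : W → V)
    (vt : W → Ω) (S : Finset V) (θ : Ω) :
    Nat.card {t // t ≠ r ∧ vt t = θ ∧ q t ∈ S} = ∑ y ∈ S, kap r q vt y θ := by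
  classical
  unfold kap
  rw [Nat.card_eq_fintype_card, Fintype.card_subtype]
  rw [Finset.card_eq_sum_card_fiberwise (f := q) (t := S)
    (fun t ht => by
      have := (Finset.mem_filter.1 (Finset.mem_coe.1 ht)).2.2.2
      exact Finset.mem_coe.2 this)]
  apply Finset.sum_congr rfl
  intro y hy
  congr 1
  ext t
  simp only [Finset.mem_filter, Finset.mem_univ, true_and]
  constructor
  · rintro ⟨⟨h1, h2, -⟩, h3⟩; exact ⟨h1, h2, h3⟩
  · rintro ⟨h1, h2, h3⟩; exact ⟨⟨h1, h2, h3 ▸ hy⟩, h3⟩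

end ModU

open ModU in
theorem u (hFA : StmtFA) (hCN : StmtCN) (hCF : StmtCF) (hTY : StmtTY) (hCT : StmtCT) : StmtU := by
  classical
  intro ε hε
  set η : ℝ := min ε 1 / 8 with hη
  have hη0 : 0 < η := by positivity
  have hη1 : η ≤ 1 / 8 := by
    have := min_le_right ε 1
    linarith
  have hηε : 8 * η ≤ ε := by
    have := min_le_left ε 1
    linarith
  obtain ⟨K, hKe, hK⟩ := hFA η hη0
  obtain ⟨D, hD1, hCN'⟩ := hCN η hη0
  obtain ⟨Θ, fΘ, hTY'⟩ := hTY D hD1
  obtain ⟨d₁, hCF'⟩ := hCF η hη0 (Fintype.card (Option Θ))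
  set m := Fintype.card (Option Θ) with hm
  have hK0 : 0 < K := lt_of_lt_of_le (Real.exp_pos 1) hKe
  refine ⟨max (max d₁ (2 * D)) (max ⌈K * m / η⌉₊ (max ⌈2 / η ^ 2⌉₊ 1)), ?_⟩
  intro d hd V W _ _ N r par dep hN hsym hirr hdep hcard
  have hd1 : d₁ ≤ d := (le_max_left _ _).trans ((le_max_left _ _).trans hd)
  have hd2 : 2 * D ≤ d := (le_max_right _ _).trans ((le_max_left _ _).trans hd)
  have hd3 : K * m / η ≤ d := (Nat.le_ceil _).trans
    (by exact_mod_cast (le_max_left _ _).trans ((le_max_right _ _).trans hd))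
  have hd4 : 2 / η ^ 2 ≤ d := (Nat.le_ceil _).trans
    (by exact_mod_cast (le_max_left _ _).trans ((le_max_right _ _).trans
      ((le_max_right _ _).trans hd)))
  have hd5 : 1 ≤ d := (le_max_right _ _).trans ((le_max_right _ _).trans
      ((le_max_right _ _).trans hd))
  have hdpos : (0 : ℝ) < d := by exact_mod_cast hd5
  set n := Fintype.card V with hn
  have hdn : d + 1 ≤ n := by
    have hx : Nonempty V := by
      rw [← Fintype.card_pos_iff, ← hn, ← hcard]
      exact Fintype.card_pos_iff.2 ⟨r⟩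
    obtain ⟨x⟩ := hx
    have h1 : (insert x (N x)).card = d + 1 := by
      rw [Finset.card_insert_of_notMem (hirr x), hN x]
    rw [← h1]
    exact Finset.card_le_univ _
  have hnd : (d : ℝ) ≤ n := by exact_mod_cast (Nat.le_of_succ_le hdn)
  obtain ⟨vt, idx, z, hTS, hz1, hz2⟩ := hTY' W r par dep hdep (by omega)
  obtain ⟨𝒢, h𝒢1, h𝒢2⟩ := hCF' d hd1 V (Option Θ) N le_rfl hN hsym
  obtain ⟨hfin, hncard⟩ := hCN' V
  set Z : Finset (V → ℕ) := hfin.toFinset with hZ
  have hZcard : (Z.card : ℝ) ≤ Real.exp (η * n) := by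
    rw [hZ, ← Set.ncard_eq_toFinset_card _ hfin]
    exact hncard
  set b : ℝ → ℝ := fun y => ((1 + η) * y + K) / Real.exp 1 with hb
  have he : 0 < Real.exp 1 := Real.exp_pos 1
  have hb1 : ∀ (c : ℕ) (y : ℝ), (c : ℝ) ≤ y → bb c ≤ b y := by
    intro c y hcy
    refine (hK c).trans ?_
    simp only [hb]
    apply div_le_div_of_nonneg_right _ he.le
    have := mul_le_mul_of_nonneg_left hcy (by linarith : (0 : ℝ) ≤ 1 + η)
    linarith
  have hb2 : ∀ y : ℝ, 0 ≤ y → 1 ≤ b y := by
    intro y hy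
    simp only [hb]
    rw [le_div_iff₀ he]
    have : 0 ≤ (1 + η) * y := by positivity
    linarith
  -- the sets of embeddings dominated by a member of the family
  set Φ : (V → Option Θ → ℝ) → Set (W ≃ V) := fun g =>
    {φ : W ≃ V | (∀ t, t ≠ r → φ (par t) ∈ N (φ t)) ∧
    (∀ x θ, (Nat.card {t // t ≠ r ∧ vt t = θ ∧ φ (par t) ∈ N x} : ℝ) ≤ g x θ) ∧
    (fun y => z (φ.symm y)) ∈ Z} with hΦ
  set 𝒢' := 𝒢.filter (fun g => (∀ x θ, 0 ≤ g x θ) ∧
    ∑ x, ∑ θ, g x θ ≤ d * ((1 + η) * n)) with h𝒢'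
  have hbound : ∀ g ∈ 𝒢', ((Φ g).ncard : ℝ) ≤
      Real.exp (η * n) * n * ((d / Real.exp 1) ^ n * Real.exp (4 * η * n)) := by
    intro g hg
    rw [h𝒢', Finset.mem_filter] at hg
    obtain ⟨-, hg0, hgs⟩ := hg
    have h1 := hCT V W Θ N r par dep vt idx z hdep hTS Z g b hb1 (fun x θ => hb2 _ (hg0 x θ))
    have h2 : ((Φ g).ncard : ℝ) ≤ Z.card * n * ∏ x, ∑ θ, b (g x θ) := by
      have : (Φ g).ncard = Nat.card {φ : W ≃ V // (∀ t, t ≠ r → φ (par t) ∈ N (φ t)) ∧
          (∀ x θ, (Nat.card {t // t ≠ r ∧ vt t = θ ∧ φ (par t) ∈ N x} : ℝ) ≤ g x θ) ∧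
          (fun y => z (φ.symm y)) ∈ Z} := rfl
      rw [this]
      exact h1
    have hs0 : ∀ x, 0 ≤ ∑ θ, b (g x θ) := fun x =>
      Finset.sum_nonneg fun θ _ => zero_le_one.trans (hb2 _ (hg0 x θ))
    have h3 : ∏ x, ∑ θ, b (g x θ) ≤ (d / Real.exp 1) ^ n * Real.exp (4 * η * n) := by
      apply prod_le _ hs0 _ _ (by positivity)
      have h4 : ∑ x, ∑ θ, b (g x θ) =
          ((1 + η) * (∑ x, ∑ θ, g x θ) + K * (m * n)) / Real.exp 1 := by
        simp only [hb]
        simp_rw [← Finset.sum_div]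
        congr 1
        simp_rw [Finset.sum_add_distrib, ← Finset.mul_sum, Finset.sum_const, Finset.card_univ]
        rw [nsmul_eq_mul, nsmul_eq_mul, ← hn, ← hm]
        ring
      rw [h4, div_le_iff₀ he]
      have h5 : K * m ≤ η * d := by
        rw [div_le_iff₀ hη0] at hd3
        linarith
      have h6 : (d : ℝ) / Real.exp 1 * ((1 + 4 * η) * n) * Real.exp 1 = d * ((1 + 4 * η) * n) := by
        field_simp
      rw [h6]
      have hn0 : (0 : ℝ) ≤ n := by positivity
      have h7 : (1 + η) * (∑ x, ∑ θ, g x θ) ≤ (1 + η) * (d * ((1 + η) * n)) :=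
        mul_le_mul_of_nonneg_left hgs (by linarith)
      have h8 : K * (m * n) ≤ η * d * n := by
        calc K * (m * n) = K * m * n := by ring
          _ ≤ _ := mul_le_mul_of_nonneg_right h5 hn0
      have h9 : (1 + η) * (1 + η) + η ≤ 1 + 4 * η := by nlinarith
      calc (1 + η) * (∑ x, ∑ θ, g x θ) + K * (m * n)
          ≤ (1 + η) * (d * ((1 + η) * n)) + η * d * n := add_le_add h7 h8
        _ = (d * n) * ((1 + η) * (1 + η) + η) := by ring
        _ ≤ (d * n) * (1 + 4 * η) := mul_le_mul_of_nonneg_left h9 (by positivity)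
        _ = _ := by ring
    calc ((Φ g).ncard : ℝ) ≤ Z.card * n * ∏ x, ∑ θ, b (g x θ) := h2
      _ ≤ Real.exp (η * n) * n * ((d / Real.exp 1) ^ n * Real.exp (4 * η * n)) := by
          apply mul_le_mul
          · exact mul_le_mul_of_nonneg_right hZcard (by positivity)
          · exact h3
          · exact Finset.prod_nonneg fun x _ => hs0 x
          · positivity
  -- every embedding is dominated
  have hcov : {φ : W ≃ V | ∀ t, t ≠ r → φ (par t) ∈ N (φ t)} ⊆ ⋃ g ∈ 𝒢', Φ g := by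
    intro φ hφ
    have hφ' : ∀ t, t ≠ r → φ (par t) ∈ N (φ t) := hφ
    have hκ1 : ∑ x, ∑ θ, kap r (fun t => φ (par t)) vt x θ ≤ n := by
      rw [← hcard]
      exact kap_sum r (fun t => φ (par t)) vt
    obtain ⟨g, hg, hg1, hg2⟩ := h𝒢2 _ hκ1
    have hg0 : ∀ x θ, 0 ≤ g x θ := fun x θ => le_trans (by positivity) (hg1 x θ)
    rw [Set.mem_iUnion₂]
    refine ⟨g, ?_, hφ', ?_, ?_⟩
    · rw [h𝒢', Finset.mem_filter]
      exact ⟨hg, hg0, hg2⟩
    · intro x θ
      refine le_trans (le_of_eq ?_) (hg1 x θ)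
      congr 1
      exact kap_nb r (fun t => φ (par t)) vt (N x) θ
    · rw [hZ, Set.Finite.mem_toFinset]
      refine ⟨?_, ?_⟩
      · have h1 : Nat.card {x // z (φ.symm x) ≠ 0} = Nat.card {u // z u ≠ 0} :=
          Nat.card_congr (φ.symm.subtypeEquiv fun x => Iff.rfl)
        rw [h1, ← hn, ← hcard]
        exact hz1
      · have h1 : ∑ x, z (φ.symm x) = ∑ u, z u := Equiv.sum_comp φ.symm z
        rw [h1, ← hn, ← hcard]
        exact hz2
  have h10 : (Nat.card {φ : W ≃ V // ∀ t, t ≠ r → φ (par t) ∈ N (φ t)} : ℝ) ≤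
      ∑ g ∈ 𝒢', ((Φ g).ncard : ℝ) := by
    have h1 : Nat.card {φ : W ≃ V // ∀ t, t ≠ r → φ (par t) ∈ N (φ t)} =
      ({φ : W ≃ V | ∀ t, t ≠ r → φ (par t) ∈ N (φ t)}).ncard := rfl
    rw [h1]
    have h2 := (Set.ncard_le_ncard hcov (Set.toFinite _)).trans (Finset.set_ncard_biUnion_le _ _)
    exact_mod_cast h2
  have hn1 : (n : ℝ) ≤ Real.exp (η * n) := n_le_exp hη0 (hd4.trans hnd)
  calc (Nat.card {φ : W ≃ V // ∀ t, t ≠ r → φ (par t) ∈ N (φ t)} : ℝ)
      ≤ ∑ g ∈ 𝒢', ((Φ g).ncard : ℝ) := h10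
    _ ≤ ∑ _g ∈ 𝒢', Real.exp (η * n) * n * ((d / Real.exp 1) ^ n * Real.exp (4 * η * n)) :=
        Finset.sum_le_sum hbound
    _ = 𝒢'.card * (Real.exp (η * n) * n * ((d / Real.exp 1) ^ n * Real.exp (4 * η * n))) := by
        rw [Finset.sum_const, nsmul_eq_mul]
    _ ≤ Real.exp (η * n) * (Real.exp (η * n) * Real.exp (η * n) *
          ((d / Real.exp 1) ^ n * Real.exp (4 * η * n))) := by
        apply mul_le_mul
        · refine le_trans ?_ h𝒢1
          exact_mod_cast Finset.card_filter_le _ _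
        · apply mul_le_mul_of_nonneg_right _ (by positivity)
          exact mul_le_mul_of_nonneg_left hn1 (Real.exp_pos _).le
        · positivity
        · positivity
    _ = (d / Real.exp 1) ^ n * Real.exp (7 * η * n) := by
        have : Real.exp (7 * η * n) = Real.exp (η * n) * Real.exp (η * n) * Real.exp (η * n) *
            Real.exp (4 * η * n) := by
          rw [← Real.exp_add, ← Real.exp_add, ← Real.exp_add]
          congr 1
          ring
        rw [this]
        ring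
    _ ≤ (d / Real.exp 1) ^ n * Real.exp (ε * n) := by
        apply mul_le_mul_of_nonneg_left _ (by positivity)
        apply Real.exp_le_exp.2
        apply mul_le_mul_of_nonneg_right _ (by positivity)
        linarith

end Pool.Agent.T6.H90.ST
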